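import Pool.Agent.ISB.StmtsA

/-! # Squad ISB, row CAL: calculus of brackets of submodules -/

set_option autoImplicit false

namespace Pool.Agent.ISB.H27

open Pool.Agent.ISB

variable {F L : Type} [Field F] [LieRing L] [LieAlgebra F L]

theorem mem_br {A B : Submodule F L} {a b : L} (ha : a ∈ A) (hb : b ∈ B) : ⁅a, b⁆ ∈ br A B :=
  Submodule.subset_span ⟨a, ha, b, hb, rfl⟩

theorem br_le {A B D : Submodule F L} (h : ∀ a ∈ A, ∀ b ∈ B, ⁅a, b⁆ ∈ D) : br A B ≤ D := by
  refine Submodule.span_le.2 ?_
  rintro z ⟨a, ha, b, hb, rfl⟩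
  exact h a ha b hb

theorem br_mono {A B C D : Submodule F L} (h1 : A ≤ C) (h2 : B ≤ D) : br A B ≤ br C D :=
  br_le fun _ ha _ hb => mem_br (h1 ha) (h2 hb)

theorem br_comm_le (A B : Submodule F L) : br A B ≤ br B A := by
  refine br_le fun a ha b hb => ?_
  rw [← lie_skew]
  exact Submodule.neg_mem _ (mem_br hb ha)

theorem cal : CalStmt := by
  intro F L _ _ _
  refine ⟨fun A B C D h1 h2 => br_mono h1 h2, fun A B => le_antisymm (br_comm_le A B)
    (br_comm_le B A), ?_, ?_, ?_, ?_, ?_, ?_⟩
  · intro A B C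
    refine le_antisymm (br_le fun a ha c hc => ?_)
      (sup_le (br_mono le_sup_left le_rfl) (br_mono le_sup_right le_rfl))
    obtain ⟨a1, h1, a2, h2, rfl⟩ := Submodule.mem_sup.1 ha
    rw [add_lie]
    exact Submodule.add_mem_sup (mem_br h1 hc) (mem_br h2 hc)
  · intro A B C
    refine br_le fun a ha u hu => ?_
    refine Submodule.span_induction (p := fun u _ => ⁅a, u⁆ ∈ br (br A B) C ⊔ br (br A C) B)
      ?_ ?_ ?_ ?_ hu
    · rintro z ⟨b, hb, c, hc, rfl⟩
      have e : ⁅a, ⁅b, c⁆⁆ = ⁅⁅a, b⁆, c⁆ + (-1 : F) • ⁅⁅a, c⁆, b⁆ := by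
        rw [leibniz_lie a b c, neg_one_smul, lie_skew b ⁅a, c⁆]
      rw [e]
      exact Submodule.add_mem_sup (mem_br (mem_br ha hb) hc)
        (Submodule.smul_mem _ _ (mem_br (mem_br ha hc) hb))
    · rw [lie_zero]
      exact Submodule.zero_mem _
    · intro x y _ _ hx hy
      rw [lie_add]
      exact Submodule.add_mem _ hx hy
    · intro t x _ hx
      rw [lie_smul]
      exact Submodule.smul_mem _ _ hx
  · intro X Y
    refine le_antisymm (br_le fun a ha b hb => ?_) (Submodule.span_le.2 ?_)
    · refine Submodule.span_induction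
        (p := fun a _ => ⁅a, b⁆ ∈ Submodule.span F {z | ∃ x ∈ X, ∃ y ∈ Y, z = ⁅x, y⁆})
        ?_ ?_ ?_ ?_ ha
      · intro x hx
        refine Submodule.span_induction
          (p := fun b _ => ⁅x, b⁆ ∈ Submodule.span F {z | ∃ x ∈ X, ∃ y ∈ Y, z = ⁅x, y⁆})
          ?_ ?_ ?_ ?_ hb
        · intro y hy
          exact Submodule.subset_span ⟨x, hx, y, hy, rfl⟩
        · rw [lie_zero]
          exact Submodule.zero_mem _
        · intro u v _ _ hu hv
          rw [lie_add]
          exact Submodule.add_mem _ hu hv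
        · intro t u _ hu
          rw [lie_smul]
          exact Submodule.smul_mem _ _ hu
      · rw [zero_lie]
        exact Submodule.zero_mem _
      · intro u v _ _ hu hv
        rw [add_lie]
        exact Submodule.add_mem _ hu hv
      · intro t u _ hu
        rw [smul_lie]
        exact Submodule.smul_mem _ _ hu
    · rintro z ⟨x, hx, y, hy, rfl⟩
      exact mem_br (Submodule.subset_span hx) (Submodule.subset_span hy)
  · intro A
    refine le_bot_iff.1 (br_le fun a ha b _ => ?_)
    rw [(Submodule.mem_bot F).1 ha, zero_lie]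
    exact Submodule.zero_mem _
  · intro A B p q
    induction q with
    | zero => rfl
    | succ q ih =>
      show br (itr (itr A B p) B q) B = br (itr A B (p + q)) B
      rw [ih]
  · intro A A' B B' p h1 h2
    induction p with
    | zero => exact h1
    | succ p ih => exact br_mono ih h2

end Pool.Agent.ISB.H27
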